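import Pool.Agent.H71.ASF.StmtsM

/-!
# ASF: one automorphism of prime order
-/

set_option autoImplicit false

namespace ASF

universe u

theorem gcy (h1 : GTEStmt.{u}) (h2 : SGRStmt.{u}) : GCYStmt.{u} := by
  intro q hq A _ _ g hadd hmul hg htor C hC ⟨n, hn⟩
  have : NeZero q := ⟨hq.ne_zero⟩
  obtain ⟨R, _, A', _, _, _, _, _, j, 𝒜, h6, jmul, jinj, hgr, h0⟩ := h1 q hq A g hadd hmul hg htor
  -- the derived series of `𝒜 0`
  have c1 : ∀ m, der (𝒜 0) m ≤ Submodule.span R (j '' (derG C m : Set A)) := by
    intro m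
    induction m with
    | zero =>
      change 𝒜 0 ≤ _
      rw [h0]
      refine Submodule.span_mono ?_
      rintro z ⟨x, hx, rfl⟩
      exact ⟨x, (hC x).2 hx, rfl⟩
    | succ m ih =>
      change mulS (der (𝒜 0) m) (der (𝒜 0) m) ≤ _
      rw [mulS, Submodule.span_le]
      rintro z ⟨x, hx, y, hy, rfl⟩
      have key : ∀ x ∈ Submodule.span R (j '' (derG C m : Set A)),
          ∀ y ∈ Submodule.span R (j '' (derG C m : Set A)),
          x * y ∈ Submodule.span R (j '' (derG C (m + 1) : Set A)) := by
        intro x hx y hy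
        induction hx using Submodule.span_induction with
        | mem x hx =>
          obtain ⟨a, ha, rfl⟩ := hx
          induction hy using Submodule.span_induction with
          | mem y hy =>
            obtain ⟨b, hb, rfl⟩ := hy
            rw [← jmul]
            exact Submodule.subset_span ⟨a * b, AddSubgroup.subset_closure ⟨a, ha, b, hb, rfl⟩, rfl⟩
          | zero => rw [mul_zero]; exact Submodule.zero_mem _
          | add y z _ _ h3 h4 => rw [mul_add]; exact Submodule.add_mem _ h3 h4
          | smul r y _ h3 => rw [mul_smul_comm]; exact Submodule.smul_mem _ _ h3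
        | zero => rw [zero_mul]; exact Submodule.zero_mem _
        | add x z _ _ h3 h4 => rw [add_mul]; exact Submodule.add_mem _ h3 h4
        | smul r x _ h3 => rw [smul_mul_assoc]; exact Submodule.smul_mem _ _ h3
      exact key x (ih hx) y (ih hy)
  have hs0 : Solv (𝒜 0) := by
    refine ⟨n, ?_⟩
    rw [eq_bot_iff]
    refine (c1 n).trans ?_
    rw [Submodule.span_le]
    rintro z ⟨x, hx, rfl⟩
    rw [hn] at hx
    have hx0 : x = 0 := AddSubgroup.mem_bot.1 hx
    rw [hx0, map_zero]
    exact Submodule.zero_mem _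
  obtain ⟨N, hN⟩ := h2 R h6 q A' 𝒜 hgr hs0
  have c2 : ∀ m, ∀ x ∈ derG (⊤ : AddSubgroup A) m, j x ∈ der (⊤ : Submodule R A') m := by
    intro m
    induction m with
    | zero => exact fun x _ => Submodule.mem_top
    | succ m ih =>
      intro x hx
      change x ∈ AddSubgroup.closure {z | ∃ x ∈ derG ⊤ m, ∃ y ∈ derG ⊤ m, z = x * y} at hx
      induction hx using AddSubgroup.closure_induction with
      | mem x hx =>
        obtain ⟨a, ha, b, hb, rfl⟩ := hx
        rw [jmul]
        exact Submodule.subset_span ⟨j a, ih a ha, j b, ih b hb, rfl⟩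
      | zero => rw [map_zero]; exact Submodule.zero_mem _
      | add x y _ _ h3 h4 => rw [map_add]; exact Submodule.add_mem _ h3 h4
      | neg x _ h3 => rw [map_neg]; exact Submodule.neg_mem _ h3
  refine ⟨N, ?_⟩
  rw [eq_bot_iff]
  intro x hx
  have h3 := c2 N x hx
  rw [hN, Submodule.mem_bot] at h3
  rw [AddSubgroup.mem_bot]
  exact jinj (by rw [h3, map_zero])

end ASF
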