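import Pool.Agent.H71.ASF.StmtsM

/-!
# ASF: the coefficient ring
-/

set_option autoImplicit false

open Polynomial

namespace ASF

namespace GRI

theorem sum_zero {R : Type} [CommRing R] (q : ℕ) [Fact q.Prime] (ζ : R) (h1 : ζ ^ q = 1)
    (h0 : ∑ k ∈ Finset.range q, ζ ^ k = 0) (i : ℕ) (hi : ¬ q ∣ i) :
    ∑ k ∈ Finset.range q, ζ ^ (i * k) = 0 := by
  have hq : 0 < q := (Fact.out : q.Prime).pos
  have : NeZero q := ⟨hq.ne'⟩
  have key : ∀ g : ℕ → R, ∑ k ∈ Finset.range q, g k = ∑ a : ZMod q, g a.val := by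
    intro g
    refine Finset.sum_bij' (fun k _ => (k : ZMod q)) (fun a _ => a.val) ?_ ?_ ?_ ?_ ?_
    · intro k _; exact Finset.mem_univ _
    · intro a _; exact Finset.mem_range.2 (ZMod.val_lt a)
    · intro k hk; exact ZMod.val_cast_of_lt (Finset.mem_range.1 hk)
    · intro a _; exact ZMod.natCast_zmod_val a
    · intro k hk
      rw [ZMod.val_cast_of_lt (Finset.mem_range.1 hk)]
  have hpow : ∀ n : ℕ, ζ ^ n = ζ ^ ((n : ZMod q).val) := by
    intro n
    rw [ZMod.val_natCast]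
    conv_lhs => rw [← Nat.mod_add_div n q]
    rw [pow_add, pow_mul, h1, one_pow, mul_one]
  rw [key]
  have hi' : (i : ZMod q) ≠ 0 := by
    intro h
    exact hi ((ZMod.natCast_eq_zero_iff i q).1 h)
  have h2 : ∀ a : ZMod q, ζ ^ (i * a.val) = ζ ^ (((i : ZMod q) * a).val) := by
    intro a
    rw [hpow (i * a.val)]
    congr 2
    push_cast
    rw [ZMod.natCast_zmod_val]
  simp_rw [h2]
  rw [← h0, key]
  exact Fintype.sum_equiv (Equiv.mulLeft₀ (i : ZMod q) hi') _ _ fun a => rfl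

theorem gen (K : Type) [CommRing K] (q : ℕ) (hq : q.Prime) (hu : IsUnit ((6 * q : ℕ) : K)) :
    ∃ (R : Type) (_ : CommRing R) (ζ : R) (f : R →+ K),
    IsUnit (6 : R) ∧ IsUnit (q : R) ∧ ζ ^ q = 1 ∧
    (∀ i : ℕ, ¬ q ∣ i → ∑ k ∈ Finset.range q, ζ ^ (i * k) = 0) ∧ f 1 = 1 := by
  have : Fact q.Prime := ⟨hq⟩
  let Φ : K[X] := ∑ k ∈ Finset.range q, X ^ k
  have hmul : Φ * (X - 1) = X ^ q - 1 := geom_sum_mul X q
  have hmon : Φ.Monic := by
    have h1 : (X ^ q - 1 : K[X]).Monic := monic_X_pow_sub_C 1 hq.ne_zero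
    have h2 : (X - 1 : K[X]).Monic := monic_X_sub_C 1
    rw [← hmul] at h1
    exact h2.of_mul_monic_right h1
  have hroot : ∑ k ∈ Finset.range q, (AdjoinRoot.root Φ) ^ k = 0 := by
    have h1 : AdjoinRoot.mk Φ Φ = 0 := AdjoinRoot.mk_self
    have h2 : AdjoinRoot.mk Φ Φ = ∑ k ∈ Finset.range q, (AdjoinRoot.root Φ) ^ k := by
      conv_lhs => rw [show (AdjoinRoot.mk Φ) Φ = (AdjoinRoot.mk Φ) (∑ k ∈ Finset.range q, X ^ k) from rfl]
      rw [map_sum]
      refine Finset.sum_congr rfl fun k _ => ?_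
      rw [map_pow, AdjoinRoot.mk_X]
    rw [← h2, h1]
  have hpow : (AdjoinRoot.root Φ) ^ q = 1 := by
    have h1 := geom_sum_mul (AdjoinRoot.root Φ) q
    rw [hroot, zero_mul] at h1
    exact (sub_eq_zero.1 h1.symm)
  have hu' : IsUnit ((6 * q : ℕ) : AdjoinRoot Φ) := by
    have h1 := hu.map (algebraMap K (AdjoinRoot Φ))
    rwa [map_natCast] at h1
  rw [Nat.cast_mul] at hu'
  refine ⟨AdjoinRoot Φ, inferInstance, AdjoinRoot.root Φ,
    ((Polynomial.lcoeff K 0).comp (AdjoinRoot.modByMonicHom hmon)).toAddMonoidHom, ?_, ?_, hpow, ?_, ?_⟩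
  · have h1 := isUnit_of_mul_isUnit_left hu'
    simpa using h1
  · exact isUnit_of_mul_isUnit_right hu'
  · exact fun i hi => sum_zero q _ hpow hroot i hi
  · nontriviality K
    have h1 : AdjoinRoot.modByMonicHom hmon 1 = 1 %ₘ Φ := by
      rw [← map_one (AdjoinRoot.mk Φ), AdjoinRoot.modByMonicHom_mk]
    have h2 : (1 : K[X]) %ₘ Φ = 1 := by
      rw [Polynomial.modByMonic_eq_self_iff hmon]
      have h3 : Φ.degree = ((q - 1 : ℕ) : WithBot ℕ) := by
        have h4 := congrArg Polynomial.natDegree hmul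
        have h5 : (X - 1 : K[X]).Monic := monic_X_sub_C 1
        rw [hmon.natDegree_mul h5] at h4
        have h6 : (X ^ q - 1 : K[X]).natDegree = q := natDegree_X_pow_sub_C (r := (1 : K))
        have h7 : (X - 1 : K[X]).natDegree = 1 := natDegree_X_sub_C (1 : K)
        rw [h6, h7] at h4
        rw [Polynomial.degree_eq_natDegree hmon.ne_zero]
        congr 1
        omega
      rw [Polynomial.degree_one, h3]
      have := hq.two_le
      exact_mod_cast (by omega : 0 < q - 1)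
    change Polynomial.coeff (AdjoinRoot.modByMonicHom hmon 1) 0 = 1
    rw [h1, h2, Polynomial.coeff_one_zero]

end GRI

theorem gri : GRIStmt := by
  intro q hq
  refine GRI.gen (Localization.Away ((6 * q : ℕ) : ℤ)) q hq ?_
  have h := IsLocalization.Away.algebraMap_isUnit (S := Localization.Away ((6 * q : ℕ) : ℤ))
    ((6 * q : ℕ) : ℤ)
  rwa [map_natCast] at h

end ASF
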