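import Pool.Agent.H71.ASF.StmtsM

/-!
# ASF: finite solvable groups
-/

set_option autoImplicit false

namespace ASF

universe u v

namespace GSO

/-- a nontrivial finite solvable group has a normal subgroup of prime index, maximal -/
theorem exists_prime_index (G : Type v) [Group G] [Finite G] [Group.IsSolvable G] [Nontrivial G] :
    ∃ H : Subgroup G, H.Normal ∧ H.index.Prime ∧ IsCoatom H := by
  have h1 : commutator G ≠ ⊤ := (Group.IsSolvable.commutator_lt_top_of_nontrivial G).ne
  rcases IsCoatomic.eq_top_or_exists_le_coatom (commutator G) with h | ⟨H, hH, hle⟩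
  · exact absurd h h1
  have hN : H.Normal := Subgroup.Normal.of_commutator_le G hle
  have hcomm : IsMulCommutative (G ⧸ H) := Subgroup.Normal.quotient_commutative_iff_commutator_le.2 hle
  have hsimple : IsSimpleGroup (G ⧸ H) := by
    refine { exists_pair_ne := ?_, eq_bot_or_eq_top_of_normal := ?_ }
    · have : Nontrivial (G ⧸ H) := QuotientGroup.nontrivial_iff.2 hH.1
      exact exists_pair_ne _
    · intro K _
      have h2 : H ≤ K.comap (QuotientGroup.mk' H) := QuotientGroup.le_comap_mk' H K
      have h3 : (K.comap (QuotientGroup.mk' H)).map (QuotientGroup.mk' H) = K :=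
        Subgroup.map_comap_eq_self (by simp)
      rcases hH.le_iff.1 h2 with h4 | h4
      · right
        rw [← h3, h4, Subgroup.map_top_of_surjective _ (QuotientGroup.mk'_surjective H)]
      · left
        rw [← h3, h4, QuotientGroup.map_mk'_self]
  exact ⟨H, hN, Group.is_simple_iff_prime_card.1 hsimple, hH⟩

/-- images of derived series -/
theorem map_derG {A B : Type u} [NonUnitalNonAssocRing A] [NonUnitalNonAssocRing B] (f : A →+ B)
    (hf : ∀ x y, f (x * y) = f x * f y) (D : AddSubgroup A) :
    ∀ m, (derG D m).map f = derG (D.map f) m := by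
  intro m
  induction m with
  | zero => rfl
  | succ m ih =>
    change (AddSubgroup.closure _).map f = AddSubgroup.closure _
    rw [AddMonoidHom.map_closure, ← ih]
    congr 1
    ext z
    constructor
    · rintro ⟨_, ⟨x, hx, y, hy, rfl⟩, rfl⟩
      exact ⟨f x, ⟨x, hx, rfl⟩, f y, ⟨y, hy, rfl⟩, hf x y⟩
    · rintro ⟨_, ⟨x, hx, rfl⟩, _, ⟨y, hy, rfl⟩, rfl⟩
      exact ⟨x * y, ⟨x, hx, y, hy, rfl⟩, hf x y⟩

/-- the fixed subring of a subgroup -/
def fixS {G : Type v} [Group G] {A : Type u} [NonUnitalNonAssocRing A] (ρ : G →* (A ≃+* A))
    (H : Subgroup G) : NonUnitalSubring A where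
  carrier := {x | ∀ h ∈ H, ρ h x = x}
  mul_mem' := fun {a b} ha hb h hh => by rw [map_mul, ha h hh, hb h hh]
  add_mem' := fun {a b} ha hb h hh => by rw [map_add, ha h hh, hb h hh]
  zero_mem' := fun h _ => map_zero _
  neg_mem' := fun {a} ha h hh => by rw [map_neg, ha h hh]

instance altS {A : Type u} [NonUnitalNonAssocRing A] [Alt A] (S : NonUnitalSubring A) : Alt S where
  left x y := Subtype.ext (Alt.left (x : A) (y : A))
  right x y := Subtype.ext (Alt.right (x : A) (y : A))

theorem mem_fixS {G : Type v} [Group G] {A : Type u} [NonUnitalNonAssocRing A] (ρ : G →* (A ≃+* A))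
    (H : Subgroup G) (x : A) : x ∈ fixS ρ H ↔ ∀ h ∈ H, ρ h x = x := Iff.rfl

end GSO

open GSO in
theorem gso (h1 : GCYStmt.{u}) : GSOStmt.{u, v} := by
  have main : ∀ (n : ℕ) (G : Type v) [Group G] [Finite G] [Group.IsSolvable G] (A : Type u)
      [NonUnitalNonAssocRing A] [Alt A] (ρ : G →* (A ≃+* A)), Nat.card G = n →
      (∀ x : A, (6 * Nat.card G) • x = 0 → x = 0) →
      ∀ C : AddSubgroup A, (∀ x, x ∈ C ↔ ∀ g, ρ g x = x) → (∃ n, derG C n = ⊥) →
      ∃ n, derG (⊤ : AddSubgroup A) n = ⊥ := by
    intro n
    induction n using Nat.strong_induction_on with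
    | _ n ih =>
      intro G _ _ _ A _ _ ρ hcard htor C hC hsol
      rcases subsingleton_or_nontrivial G with hG | hG
      · have hCt : C = ⊤ := by
          rw [eq_top_iff]
          intro x _
          rw [hC]
          intro g
          rw [Subsingleton.elim g 1, map_one]
          rfl
        rwa [hCt] at hsol
      obtain ⟨H, hN, hq, hmax⟩ := exists_prime_index G
      obtain ⟨t, ht⟩ : ∃ t, t ∉ H := by
        by_contra hcon
        push Not at hcon
        exact hmax.1 (by rw [eq_top_iff]; exact fun x _ => hcon x)
      have hgen : H ⊔ Subgroup.zpowers t = ⊤ := by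
        refine hmax.2 _ (lt_of_le_of_ne le_sup_left fun h => ht ?_)
        rw [h]
        exact (le_sup_right : Subgroup.zpowers t ≤ _) (Subgroup.mem_zpowers t)
      have htq : t ^ H.index ∈ H := by
        rw [← QuotientGroup.eq_one_iff, QuotientGroup.mk_pow]
        exact pow_card_eq_one'
      have hdvd : H.index ∣ Nat.card G := H.index_dvd_card
      -- the automorphism of the fixed ring
      have hmul : ∀ (a b : G) (x : A), ρ (a * b) x = ρ a (ρ b x) := fun a b x => by
        rw [map_mul]; rfl
      let S := fixS ρ H
      have hpres : ∀ x ∈ S, ρ t x ∈ S := by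
        intro x hx h hh
        have h2 : h * t = t * (t⁻¹ * h * t) := by group
        rw [← hmul, h2, hmul]
        congr 1
        refine hx _ ?_
        have h3 := hN.conj_mem h hh t⁻¹
        rwa [inv_inv] at h3
      let g : S → S := fun x => ⟨ρ t x, hpres x x.2⟩
      have hg : ∀ (k : ℕ) (x : S), ((g^[k] x : S) : A) = ρ (t ^ k) x := by
        intro k
        induction k with
        | zero => intro x; rw [pow_zero, map_one]; rfl
        | succ k ihk =>
          intro x
          rw [Function.iterate_succ', Function.comp_apply]
          change ρ t (g^[k] x : S) = _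
          rw [ihk, ← hmul, pow_succ']
      let f : S →+ A := ⟨⟨Subtype.val, rfl⟩, fun _ _ => rfl⟩
      have hfm : ∀ x y, f (x * y) = f x * f y := fun _ _ => rfl
      have hfi : Function.Injective f := Subtype.val_injective
      have hCS : ∀ x ∈ C, x ∈ S := fun x hx h _ => (hC x).1 hx h
      have hCmap : (C.comap f).map f = C := by
        rw [AddSubgroup.map_comap_eq_self]
        intro x hx
        exact ⟨⟨x, hCS x hx⟩, rfl⟩
      obtain ⟨k, hk⟩ := hsol
      obtain ⟨m, hm⟩ := h1 H.index hq S g (fun x y => Subtype.ext (map_add (ρ t) (x : A) y))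
        (fun x y => Subtype.ext (map_mul (ρ t) (x : A) y))
        (fun x => Subtype.ext (by rw [hg]; exact x.2 _ htq))
        (fun x hx => by
          have h2 : (6 * Nat.card G) • (x : A) = 0 := by
            obtain ⟨c, hc⟩ := hdvd
            have h3 : (6 * H.index) • (x : A) = 0 := by
              have := congrArg (Subtype.val : S → A) hx
              simpa using this
            rw [hc, ← mul_assoc, mul_comm, mul_smul, h3, smul_zero]
          exact Subtype.ext (htor x h2))
        (C.comap f)
        (fun x => by
          change (x : A) ∈ C ↔ _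
          rw [hC]
          constructor
          · intro h
            exact Subtype.ext (h t)
          · intro h
            have h2 : ρ t x = x := congrArg Subtype.val h
            let St : Subgroup G :=
              { carrier := {a | ρ a (x : A) = x}
                mul_mem' := fun {a b} ha hb => by
                  change ρ (a * b) (x : A) = x
                  rw [hmul, show ρ b (x : A) = x from hb, show ρ a (x : A) = x from ha]
                one_mem' := by
                  change ρ 1 (x : A) = x
                  rw [map_one]; rfl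
                inv_mem' := fun {a} ha => by
                  change ρ a⁻¹ (x : A) = x
                  conv_lhs => rw [← show ρ a (x : A) = x from ha]
                  rw [← hmul, inv_mul_cancel, map_one]; rfl }
            have h3 : (⊤ : Subgroup G) ≤ St := by
              rw [← hgen, sup_le_iff]
              exact ⟨fun a ha => x.2 a ha, by rw [Subgroup.zpowers_le]; exact h2⟩
            exact fun a => h3 (Subgroup.mem_top a))
        ⟨k, by
          have h2 := map_derG f hfm (C.comap f) k
          rw [hCmap, hk] at h2
          exact (AddSubgroup.map_eq_bot_iff_of_injective _ hfi).1 h2⟩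
      -- induction
      have h2 := map_derG f hfm ⊤ m
      rw [hm, AddSubgroup.map_bot] at h2
      have hlt : Nat.card H < n := by
        rw [← hcard]
        have h3 := H.card_mul_index
        have h4 := hq.two_le
        have h5 : 0 < Nat.card H := Nat.card_pos
        rw [← h3]
        nlinarith
      refine ih (Nat.card H) hlt H A (ρ.comp H.subtype) rfl ?_ ((⊤ : AddSubgroup S).map f) ?_ ⟨m, h2.symm⟩
      · intro x hx
        refine htor x ?_
        rw [← H.card_mul_index, ← mul_assoc, mul_comm, mul_smul, hx, smul_zero]
      · intro x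
        constructor
        · rintro ⟨y, -, rfl⟩ a
          exact y.2 a a.2
        · intro h
          exact ⟨⟨x, fun a ha => h ⟨a, ha⟩⟩, AddSubgroup.mem_top _, rfl⟩
  intro G _ _ _ A _ _ ρ htor C hC hsol
  exact main _ G A ρ rfl htor C hC hsol

end ASF
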